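import Pool.Agent.helper82.SC.SpecA

namespace Pool.Agent.helper82.SC

open Relation

theorem CNB_z2 (a : ZMod 2) : a = 0 ∨ a = 1 := by
  revert a; decide

theorem CNB_f1 : ∀ m : Fin 3, m + 1 ≠ m + 2 := by decide

theorem CNB_f2 : ∀ e d : Fin 3, e ≠ d → e ≠ d + 1 → e = d + 2 := by decide

theorem CNB_f3 : ∀ a j : Fin 3, a ≠ j → a = j + 1 ∨ a = j + 2 := by decide

theorem CNB_f4 : ∀ m : Fin 3, ¬ (m + 1 = m) := by decide

theorem CNB_f5 : ∀ m : Fin 3, ¬ (m + 2 = m) := by decide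

theorem CNB_f6 : ∀ m : Fin 3, ¬ (m + 1 + 1 = m) := by decide

theorem CNB_f7 : ∀ m : Fin 3, m + 1 + 2 = m := by decide

theorem CNB_f8 : ∀ m : Fin 3, m + 2 + 1 = m := by decide

theorem CNB_f9 : ∀ m : Fin 3, ¬ (m + 2 + 2 = m) := by decide

theorem CNB_link_symm (D : Dom) (ψ : Dart → ZMod 2) {x y : Dart} (h : D.Link ψ x y) :
    D.Link ψ y x := by
  obtain ⟨h1, h2, h3⟩ := h
  refine ⟨h2, h1, ?_⟩
  rcases h3 with ⟨h3, h4, h5⟩ | ⟨h3, h4⟩
  · left; rw [← h4]; exact ⟨h3, rfl, h5.symm⟩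
  · right; subst h4; exact ⟨h3.symm, (star_star x).symm⟩

theorem CNB_symm (D : Dom) (ψ : Dart → ZMod 2) {x y : Dart} (h : D.Cn ψ x y) : D.Cn ψ y x := by
  induction h with
  | refl => exact ReflTransGen.refl
  | tail _ hbc ih => exact ReflTransGen.head (CNB_link_symm D ψ hbc) ih

theorem CNB_one (D : Dom) (ψ : Dart → ZMod 2) {x y : Dart} (hx : ψ x = 1) (h : D.Cn ψ x y) :
    ψ y = 1 := by
  induction h with
  | refl => exact hx
  | tail _ hbc _ => exact hbc.2.1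

/-- the class of `p` is a colouring -/
theorem CNB_key (D : Dom) (p : Dart) (ψ : Dart → ZMod 2) (hψ : ψ ∈ D.Conf p) (hp1 : ψ p = 1)
    (hpU : S p.1 p.2 ∉ D.U) (hpU' : S p.1 (p.2 + 1) ∉ D.U) (ζ : Dart → ZMod 2)
    (hζ1 : ∀ x, D.Cn ψ p x → ζ x = 1) (hζ0 : ∀ x, ¬ D.Cn ψ p x → ζ x = 0) (β : V → ZMod 2)
    (hβ0 : ∀ v ∈ D.U, β v = 0)
    (hβ : ∀ x : Dart, D.FU x.1 → S x.1 x.2 ∉ D.U → S x.1 (x.2 + 1) ∉ D.U →
      β (S x.1 x.2) + β (S x.1 (x.2 + 1)) = ζ x) :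
    ∃ c : V → ZMod 2, (∀ v, v ∉ D.U → c v = β v) ∧
      ∀ x : Dart, D.FU x.1 → ζ x = c (S x.1 x.2) + c (S x.1 (x.2 + 1)) := by
  classical
  obtain ⟨hev, hsy, _⟩ := hψ
  have h2 : ∀ a : ZMod 2, a + a = 0 := by decide
  let Θ : Dart → ZMod 2 := fun x => if S x.1 x.2 ∉ D.U ∧ S x.1 (x.2 + 1) ∉ D.U then 0 else
    ζ x + β (S x.1 x.2) + β (S x.1 (x.2 + 1))
  have hΘ : ∀ x : Dart, D.FU x.1 → Θ x = ζ x + β (S x.1 x.2) + β (S x.1 (x.2 + 1)) := by
    intro x hx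
    by_cases h : S x.1 x.2 ∉ D.U ∧ S x.1 (x.2 + 1) ∉ D.U
    · simp only [Θ, if_pos h]
      rw [add_assoc, hβ x hx h.1 h.2, h2]
    · simp only [Θ, if_neg h]
  have hstar : ∀ x : Dart, S (star x).1 (star x).2 = S x.1 (x.2 + 1) ∧
      S (star x).1 ((star x).2 + 1) = S x.1 x.2 := fun x => ⟨S_tw x.1 x.2, S_tw' x.1 x.2⟩
  have hface : ∀ f, D.FU f → ζ (f, 0) + ζ (f, 1) + ζ (f, 2) = 0 := by
    intro f hf
    by_cases h : ∃ d, D.Cn ψ p (f, d)
    · obtain ⟨d, hd⟩ := h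
      have hd1 : ψ (f, d) = 1 := CNB_one D ψ hp1 hd
      have heq : ∀ e, ζ (f, e) = ψ (f, e) := by
        intro e
        rcases CNB_z2 (ψ (f, e)) with he | he
        · rw [he]
          apply hζ0
          intro hc
          rw [CNB_one D ψ hp1 hc] at he
          exact one_ne_zero he
        · rw [he]
          apply hζ1
          by_cases hde : (f, d) = (f, e)
          · rw [← hde]; exact hd
          · exact ReflTransGen.tail hd ⟨hd1, he, Or.inl ⟨hf, rfl, hde⟩⟩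
      rw [heq, heq, heq]; exact hev f hf
    · push Not at h
      rw [hζ0 _ (h 0), hζ0 _ (h 1), hζ0 _ (h 2)]; simp
  have hsym : ∀ x : Dart, (S x.1 x.2 ∈ D.U ∨ S x.1 (x.2 + 1) ∈ D.U) → ζ (star x) = ζ x := by
    intro x hx
    have hF : D.FU x.1 := by
      rcases hx with h | h
      exacts [⟨_, h⟩, ⟨_, h⟩]
    have hxp : ¬ (x = p ∨ x = star p) := by
      rintro (h | h)
      · subst h; rcases hx with h | h
        exacts [hpU h, hpU' h]
      · subst h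
        rw [(hstar p).1, (hstar p).2] at hx
        rcases hx with h | h
        exacts [hpU' h, hpU h]
    have hs := hsy x
    rw [if_neg hxp, add_zero] at hs
    by_cases h : D.Cn ψ p x
    · have h1 : ψ x = 1 := CNB_one D ψ hp1 h
      rw [hζ1 x h]
      apply hζ1
      exact ReflTransGen.tail h ⟨h1, by rw [hs, h1], Or.inr ⟨Or.inl hF, rfl⟩⟩
    · rw [hζ0 x h]
      apply hζ0
      intro hc
      apply h
      have h1 : ψ (star x) = 1 := CNB_one D ψ hp1 hc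
      exact ReflTransGen.tail hc ⟨h1, by rw [← hs, h1], Or.inr ⟨Or.inr hF, (star_star x).symm⟩⟩
  obtain ⟨c, hc0, hc⟩ := D.poincare Θ (by
    intro f
    by_cases hf : D.FU f
    · rw [hΘ (f, 0) hf, hΘ (f, 1) hf, hΘ (f, 2) hf]
      have e : ζ (f, 0) + β (S f 0) + β (S f (0 + 1)) + (ζ (f, 1) + β (S f 1) + β (S f (1 + 1))) +
          (ζ (f, 2) + β (S f 2) + β (S f (2 + 1))) = (ζ (f, 0) + ζ (f, 1) + ζ (f, 2)) +
          (β (S f 0) + β (S f 0)) + (β (S f 1) + β (S f 1)) + (β (S f 2) + β (S f 2)) := by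
        have e1 : (0 + 1 : Fin 3) = 1 := rfl
        have e2 : (1 + 1 : Fin 3) = 2 := rfl
        have e3 : (2 + 1 : Fin 3) = 0 := rfl
        rw [e1, e2, e3]; ring
      rw [e, hface f hf]; simp only [h2]
    · have h0 : ∀ d, Θ (f, d) = 0 := by
        intro d
        simp only [Θ]
        rw [if_pos]
        exact ⟨fun h => hf ⟨_, h⟩, fun h => hf ⟨_, h⟩⟩
      rw [h0, h0, h0]; simp) (by
    intro x
    simp only [Θ]
    rw [(hstar x).1, (hstar x).2]
    by_cases h : S x.1 x.2 ∉ D.U ∧ S x.1 (x.2 + 1) ∉ D.U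
    · rw [if_pos h, if_pos ⟨h.2, h.1⟩]
    · have h' : ¬ (S x.1 (x.2 + 1) ∉ D.U ∧ S x.1 x.2 ∉ D.U) := fun hc => h ⟨hc.2, hc.1⟩
      rw [if_neg h, if_neg h', hsym x (by
        by_contra hc; push Not at hc; exact h hc)]
      ring) (by
    intro x hx hx'
    simp only [Θ]
    rw [if_pos ⟨hx, hx'⟩])
  refine ⟨fun v => c v + β v, ?_, ?_⟩
  · intro v hv
    show c v + β v = β v
    rw [hc0 v hv, zero_add]
  · intro x hx
    have h1 := hΘ x hx
    rw [hc x] at h1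
    show ζ x = (c (S x.1 x.2) + β (S x.1 x.2)) + (c (S x.1 (x.2 + 1)) + β (S x.1 (x.2 + 1)))
    have h3 : ζ x = (ζ x + β (S x.1 x.2) + β (S x.1 (x.2 + 1))) + β (S x.1 x.2) +
        β (S x.1 (x.2 + 1)) := by
      have : (ζ x + β (S x.1 x.2) + β (S x.1 (x.2 + 1))) + β (S x.1 x.2) +
        β (S x.1 (x.2 + 1)) = ζ x + (β (S x.1 x.2) + β (S x.1 x.2)) +
          (β (S x.1 (x.2 + 1)) + β (S x.1 (x.2 + 1))) := by ring
      rw [this, h2, h2]; simp
    rw [h3, ← h1]; ring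

/-- a path of constant colour does not cross the class -/
theorem CNB_path (D : Dom) (ψ ζ : Dart → ZMod 2) (c c' : V → ZMod 2)
    (hψ : ∀ x : Dart, D.FU x.1 → ψ x = c (S x.1 x.2) + c (S x.1 (x.2 + 1)))
    (hζ : ∀ x : Dart, D.FU x.1 → ζ x = c' (S x.1 x.2) + c' (S x.1 (x.2 + 1)))
    (h0 : ∀ x, ψ x = 0 → ζ x = 0) :
    (∀ u v, TAdj u v → u ∈ D.U → c u = c v → c' u = c' v) := by
  intro u v huv hu hc
  have h2 : ∀ a : ZMod 2, a + a = 0 := by decide
  have h3 : ∀ a b : ZMod 2, a + b = 0 → a = b := by decide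
  obtain ⟨x, hx1, hx2⟩ := huv.exists_dart
  have hF : D.FU x.1 := ⟨x.2, by rw [hx1]; exact hu⟩
  have h4 := hψ x hF
  rw [hx1, hx2, hc, h2] at h4
  have h5 := hζ x hF
  rw [h0 x h4, hx1, hx2] at h5
  exact h3 _ _ h5.symm

theorem CNB_con (D : Dom) (c c' : V → ZMod 2) (W : Set V) (k : ZMod 2) (hW : W ⊆ (D.U : Set V))
    (hc : ∀ v ∈ W, c v = k)
    (hstep : ∀ u v, TAdj u v → u ∈ D.U → c u = c v → c' u = c' v) {u w : V} (h : Con W u w) :
    w ∈ W ∧ c' u = c' w := by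
  obtain ⟨hu, h⟩ := h
  induction h with
  | refl => exact ⟨hu, rfl⟩
  | tail _ hbc ih =>
    refine ⟨hbc.2, ?_⟩
    rw [ih.2]
    exact hstep _ _ hbc.1 (hW ih.1) (by rw [hc _ ih.1, hc _ hbc.2])

theorem CNB (hB4 : B4_stmt) (hCA : CA_stmt) (hEX : EX_stmt) (hARC : ARC_stmt) (hFC : FC_stmt)
    (hCO : CO_stmt) : NB_stmt := by
  classical
  intro D j p part hPart s hs
  rintro ⟨⟨u1, w1, hcon1, ⟨v1, hv1, hadj1, hsec1, hpart1⟩, ⟨v1', hv1', hadj1', hsec1'⟩⟩,
    ⟨u2, w2, hcon2, ⟨v2, hv2, hadj2, hsec2, hpart2⟩, ⟨v2', hv2', hadj2', hsec2'⟩⟩⟩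
  have hBd := hB4 D j p part hPart
  obtain ⟨hpF, hpU, hpU', hps, hps', hPb, _, hP1, hP2⟩ := hPart
  have h2 : ∀ a : ZMod 2, a + a = 0 := by decide
  set β := beta4 D j part with hβ
  set c := cx D β s with hc
  set ψ := psix D β s with hψdef
  have hψ : ψ ∈ D.Conf p := (hCA D β p hBd).mapsTo hs
  have hψF : ∀ x : Dart, D.FU x.1 → ψ x = c (S x.1 x.2) + c (S x.1 (x.2 + 1)) := by
    intro x hx
    rw [hψdef, psix, if_pos hx]
  have hcU : ∀ v, v ∉ D.U → c v = β v := by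
    intro v hv
    rw [hc, cx, if_neg hv]
  have hwp : D.wall p = 0 := by
    rw [Dom.wall, hps, hps', if_pos rfl]
  have hp1 : ψ p = 1 := by
    rw [hψF p hpF, hcU _ hpU, hcU _ hpU', hBd.2.2.2 p hpF hpU hpU', hwp, if_pos rfl]; simp
  have hzp : zp ψ p = p := by rw [zp, if_pos hp1]
  have hstar : ∀ x : Dart, S (star x).1 (star x).2 = S x.1 (x.2 + 1) ∧
      S (star x).1 ((star x).2 + 1) = S x.1 x.2 := fun x => ⟨S_tw x.1 x.2, S_tw' x.1 x.2⟩
  obtain ⟨j', hj1, hj2, _, hj4⟩ := hEX D p hpF ψ hψ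
  have hjj : j' ≠ j := by
    intro h
    have h1 := hARC D j p part ⟨hpF, hpU, hpU', hps, hps', hPb, by assumption, hP1, hP2⟩
    rw [Dom.P, div_eq_zero_iff] at h1
    rcases h1 with h1 | h1
    · have hfin : {ψ | ψ ∈ D.Conf p ∧ D.Jn ψ p j}.Finite :=
        (hFC D p hpF).1.subset fun _ h => h.1
      have h3 : {ψ | ψ ∈ D.Conf p ∧ D.Jn ψ p j} = ∅ := by
        rw [← Set.ncard_eq_zero hfin]; exact_mod_cast h1
      have : ψ ∈ {ψ | ψ ∈ D.Conf p ∧ D.Jn ψ p j} := ⟨hψ, h ▸ hj1⟩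
      rw [h3] at this
      exact this
    · have : (2 : ℝ) ^ D.U.card ≠ 0 := by positivity
      exact this h1
  rw [Dom.Jn, hzp] at hj1
  -- the corners
  have hcor : ∀ m, D.Cn ψ p (D.a m) ↔ m = j' := by
    intro m
    obtain ⟨hm1, hm2, hm3, hm4⟩ := (hCO D).2.1 m
    have hne : ¬ (D.a m = p ∨ D.a m = star p) := by
      have hsm : D.sec (S (D.a m).1 (D.a m).2) ≠ D.sec (S (D.a m).1 ((D.a m).2 + 1)) := by
        rw [D.sec_first, D.sec_second]
        exact CNB_f1 m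
      rintro (h | h)
      · rw [h, hps, hps'] at hsm; exact hsm rfl
      · rw [h, (hstar p).1, (hstar p).2, hps, hps'] at hsm; exact hsm rfl
    have hψs : ψ (star (D.a m)) = 1 := by rw [hψ.2.2 _ hm2, hm4]
    have hψa : ψ (D.a m) = 1 := by
      have := hψ.2.1 (D.a m)
      rw [if_neg hne, add_zero] at this
      rw [← this, hψs]
    have hlink : D.Link ψ (D.a m) (star (D.a m)) := ⟨hψa, hψs, Or.inr ⟨Or.inl hm1, rfl⟩⟩
    have hiff : D.Cn ψ p (D.a m) ↔ D.Cn ψ p (star (D.a m)) :=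
      ⟨fun h => h.tail hlink, fun h => h.tail (CNB_link_symm D ψ hlink)⟩
    rw [hiff]
    constructor
    · intro h
      by_contra hc
      have := (hj4 m hc).2
      rw [hzp] at this
      exact this (CNB_symm D ψ h)
    · rintro rfl
      exact hj1
  let ζ : Dart → ZMod 2 := fun x => if D.Cn ψ p x then 1 else 0
  have hζ1 : ∀ x, D.Cn ψ p x → ζ x = 1 := fun x h => if_pos h
  have hζ0 : ∀ x, ¬ D.Cn ψ p x → ζ x = 0 := fun x h => if_neg h
  have hζψ : ∀ x, ψ x = 0 → ζ x = 0 := by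
    intro x hx
    apply hζ0
    intro h
    rw [CNB_one D ψ hp1 h] at hx
    exact one_ne_zero hx
  -- boundary darts
  have hbd : ∀ x : Dart, D.FU x.1 → S x.1 x.2 ∉ D.U → S x.1 (x.2 + 1) ∉ D.U →
      (D.sec (S x.1 x.2) = D.sec (S x.1 (x.2 + 1)) → ζ x = if x = p then 1 else 0) ∧
      (D.sec (S x.1 x.2) ≠ D.sec (S x.1 (x.2 + 1)) → ∃ m, x = D.a m) := by
    intro x hx hx1 hx2
    constructor
    · intro hsec
      by_cases hxp : x = p
      · rw [if_pos hxp, hxp]; exact hζ1 p ReflTransGen.refl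
      · rw [if_neg hxp]
        apply hζψ
        rw [hψF x hx, hcU _ hx1, hcU _ hx2, hBd.2.2.2 x hx hx1 hx2, if_neg hxp, Dom.wall,
          if_pos hsec, add_zero]
    · intro hsec
      obtain ⟨e, he⟩ := hx
      have he' : e = x.2 + 2 := by
        have h1 : e ≠ x.2 := by rintro rfl; exact hx1 he
        have h3 : e ≠ x.2 + 1 := by rintro rfl; exact hx2 he
        exact CNB_f2 _ _ h1 h3
      rw [he'] at he
      exact D.only x.1 x.2 he hx1 hx2 hsec
  have hgen : ∀ θ : ZMod 2, ((θ = 0 ∧ j' = j + 1) ∨ (θ = 1 ∧ j' = j + 2)) →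
      ∃ c' : V → ZMod 2, (∀ v, v ∉ D.U → D.sec v = j → c' v = part v + θ) ∧
        (∀ v, v ∉ D.U → D.sec v ≠ j → c' v = 0) ∧
        ∀ u v, TAdj u v → u ∈ D.U → c u = c v → c' u = c' v := by
    intro θ hθ
    let β1 : V → ZMod 2 := fun v => if v ∉ D.U ∧ D.sec v = j then part v + θ else 0
    obtain ⟨c', hc'1, hc'2⟩ := CNB_key D p ψ hψ hp1 hpU hpU' ζ hζ1 hζ0 β1 (by
      intro v hv
      simp only [β1]
      rw [if_neg (fun h => h.1 hv)]) (by
      intro x hx hx1 hx2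
      simp only [β1]
      by_cases hsec : D.sec (S x.1 x.2) = D.sec (S x.1 (x.2 + 1))
      · rw [(hbd x hx hx1 hx2).1 hsec]
        by_cases hj : D.sec (S x.1 x.2) = j
        · rw [if_pos ⟨hx1, hj⟩, if_pos ⟨hx2, hsec ▸ hj⟩, ← hPb x hx hx1 hx2 hj (hsec ▸ hj)]
          calc part (S x.1 x.2) + θ + (part (S x.1 (x.2 + 1)) + θ)
              = part (S x.1 x.2) + part (S x.1 (x.2 + 1)) + (θ + θ) := by ring
            _ = _ := by rw [h2, add_zero]
        · rw [if_neg (fun h => hj h.2), if_neg (fun h => hj (hsec.trans h.2)), if_neg, add_zero]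
          rintro rfl
          exact hj hps
      · obtain ⟨m, rfl⟩ := (hbd x hx hx1 hx2).2 hsec
        rw [D.sec_first, D.sec_second]
        have hζm : ζ (D.a m) = if m = j' then 1 else 0 := by
          by_cases hm : m = j'
          · rw [if_pos hm]; exact hζ1 _ ((hcor m).mpr hm)
          · rw [if_neg hm]; exact hζ0 _ (fun h => hm ((hcor m).mp h))
        rw [hζm]
        by_cases hmj : m = j
        · subst hmj
          have e1 : ¬ (m + 1 = m) := CNB_f4 m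
          have e2 : ¬ (m + 2 = m) := CNB_f5 m
          rw [if_neg (fun h => e1 h.2), if_neg (fun h => e2 h.2), if_neg (fun h => hjj h.symm),
            add_zero]
        · rcases CNB_f3 m j hmj with hm | hm
          · subst hm
            have e1 : ¬ (j + 1 + 1 = j) := CNB_f6 j
            have e2 : j + 1 + 2 = j := CNB_f7 j
            rw [if_neg (fun h => e1 h.2), if_pos ⟨hx2, e2⟩, hP1]
            rcases hθ with ⟨h3, h4⟩ | ⟨h3, h4⟩
            · rw [h3, if_pos h4.symm]; decide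
            · rw [h3, if_neg (by rw [h4]; exact CNB_f1 j)]; decide
          · subst hm
            have e1 : j + 2 + 1 = j := CNB_f8 j
            have e2 : ¬ (j + 2 + 2 = j) := CNB_f9 j
            rw [if_pos ⟨hx1, e1⟩, if_neg (fun h => e2 h.2), hP2]
            rcases hθ with ⟨h3, h4⟩ | ⟨h3, h4⟩
            · rw [h3, if_neg (by rw [h4]; exact (CNB_f1 j).symm)]; decide
            · rw [h3, if_pos h4.symm]; decide)
    refine ⟨c', ?_, ?_, CNB_path D ψ ζ c c' hψF hc'2 hζψ⟩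
    · intro v hv hsec
      rw [hc'1 v hv]
      simp only [β1]
      rw [if_pos ⟨hv, hsec⟩]
    · intro v hv hsec
      rw [hc'1 v hv]
      simp only [β1]
      rw [if_neg (fun h => hsec h.2)]
  have hn1 : ¬ (j + 1 = j) := CNB_f4 j
  have hn2 : ¬ (j + 2 = j) := CNB_f5 j
  rcases CNB_f3 j' j hjj with hj' | hj'
  · obtain ⟨c', hc1, hc2, hstep⟩ := hgen 0 (Or.inl ⟨rfl, hj'⟩)
    have hcs : ∀ v ∈ (s : Set V), c v = 1 := by
      intro v hv
      have hv' : v ∈ s := by exact_mod_cast hv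
      rw [hc, cx, if_pos (hs hv'), if_pos hv']
    obtain ⟨hw, hcc⟩ := CNB_con D c c' (s : Set V) 1 (by exact_mod_cast hs) hcs hstep hcon2
    have h3 : c' u2 = 1 := by
      rw [hstep u2 v2 hadj2 (hs hcon2.1) (by
        rw [hcs u2 hcon2.1, hcU v2 hv2, hβ, beta4, if_pos hsec2, hpart2]), hc1 v2 hv2 hsec2, hpart2,
        add_zero]
    have h4 : c' w2 = 0 := by
      rw [hstep w2 v2' hadj2' (hs hw) (by
        rw [hcs w2 hw, hcU v2' hv2', hβ, beta4, if_neg (by rw [hsec2']; exact hn1),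
          if_pos hsec2']), hc2 v2' hv2' (by rw [hsec2']; exact hn1)]
    rw [hcc, h4] at h3
    exact zero_ne_one h3
  · obtain ⟨c', hc1, hc2, hstep⟩ := hgen 1 (Or.inr ⟨rfl, hj'⟩)
    have hcs : ∀ v ∈ (D.U : Set V) \ (s : Set V), c v = 0 := by
      intro v hv
      have h1 : v ∈ D.U := by exact_mod_cast hv.1
      have h2' : v ∉ s := fun h => hv.2 (by exact_mod_cast h)
      rw [hc, cx, if_pos h1, if_neg h2']
    obtain ⟨hw, hcc⟩ := CNB_con D c c' ((D.U : Set V) \ (s : Set V)) 0 Set.sdiff_subset hcs hstep hcon1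
    have h3 : c' u1 = 1 := by
      rw [hstep u1 v1 hadj1 hcon1.1.1 (by
        rw [hcs u1 hcon1.1, hcU v1 hv1, hβ, beta4, if_pos hsec1, hpart1]), hc1 v1 hv1 hsec1, hpart1,
        zero_add]
    have h4 : c' w1 = 0 := by
      rw [hstep w1 v1' hadj1' hw.1 (by
        rw [hcs w1 hw, hcU v1' hv1', hβ, beta4, if_neg (by rw [hsec1']; exact hn2),
          if_neg (by rw [hsec1']; exact (CNB_f1 j).symm)]),
        hc2 v1' hv1' (by rw [hsec1']; exact hn2)]
    rw [hcc, h4] at h3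
    exact zero_ne_one h3

end Pool.Agent.helper82.SC
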